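import Pool.Agent.H24.CL.TargetsK

/-!
# Row S4 of the board clk_modules: the step for a level with few positions
-/

set_option autoImplicit false

open Finset MeasureTheory

namespace Pool.Agent.H40.CLK

open Pool.Agent.H24.CL

theorem zb_nonneg {k q r : ℕ} {W : ℕ → Set (X k)} {R : ℕ → ℕ} {n G : ℕ → ℝ} {B : ℝ}
    (h : Lev k q W R n G B) (hr : 1 ≤ r) (hk : 3 ≤ k) : 0 ≤ ZB k q r R n G := by
  unfold ZB
  refine mul_nonneg (Finset.prod_nonneg fun l hl => ?_) (Finset.prod_nonneg fun l hl => ?_)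
  · rw [Finset.mem_Icc] at hl
    have h1 := (h.hn l hl.1 (by omega)).1
    positivity
  · rw [Finset.mem_Icc] at hl
    have h1 := h.hG l (by omega) (by omega)
    positivity

theorem zb_top {k q : ℕ} {R : ℕ → ℕ} {n G : ℕ → ℝ} (hk : 3 ≤ k) : ZB k q k R n G = 1 := by
  unfold ZB
  have h1 : ∀ l, wt k k (R l) l = 0 := by
    intro l
    unfold wt
    simp
  have h2 : Icc k (k - 1) = ∅ := by
    rw [Finset.Icc_eq_empty_iff]
    omega
  rw [h2, Finset.prod_empty, mul_one]
  refine Finset.prod_eq_one fun l _ => ?_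
  rw [h1, pow_zero]

/-- the fibres of the first generation -/
theorem fib_bound (hKR : TK_KR) (hTO : T_TO) {k q r : ℕ} (hq : 1 ≤ q) (hr : r ≤ k)
    (W V : Set (X k)) (hCar : Car q W V 1) (a : X k) (Y : Finset (X k))
    (hY : ∀ y ∈ Y, y ∈ W ∧ y - a ∈ H k q r) :
    (Y.card : ℝ) ≤ (q : ℝ) ^ kr k r * ∑ b ∈ Bs k q r W V a, (cc k q r b V a : ℝ) := by
  classical
  have hch : ∀ y ∈ Y, ∃ b, b < q ∧ phi q b y ∈ V := by
    intro y hy
    obtain ⟨D, hD, hDV, hDn⟩ := hCar y (hY y hy).1
    have h1 : 0 < D.card := by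
      have h2 : (0 : ℝ) < D.card := by linarith
      exact_mod_cast h2
    obtain ⟨b, hb⟩ := Finset.card_pos.mp h1
    exact ⟨b, Finset.mem_range.mp (hD hb), hDV b hb⟩
  choose! β hβ1 hβ2 using hch
  have hya : ∀ y : X k, a + (y - a) = y := fun y => by abel
  have hmaps : ∀ y ∈ Y, β y ∈ Bs k q r W V a := by
    intro y hy
    unfold Bs
    rw [Finset.mem_filter]
    refine ⟨Finset.mem_range.mpr (hβ1 y hy), y - a, (hY y hy).2, ?_, ?_⟩
    · rw [hya]; exact (hY y hy).1
    · rw [hya]; exact hβ2 y hy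
  have hsum : Y.card = ∑ b ∈ Bs k q r W V a, (Y.filter fun y => β y = b).card :=
    Finset.card_eq_sum_card_fiberwise hmaps
  have hfib : ∀ b ∈ Bs k q r W V a,
      (Y.filter fun y => β y = b).card ≤ q ^ kr k r * cc k q r b V a := by
    intro b hb
    have hm2 : ∀ y ∈ Y.filter (fun y => β y = b),
        phi q b y ∈ ((HF k q r).image fun h => phi q b (a + h)).filter fun v => v ∈ V := by
      intro y hy
      rw [Finset.mem_filter] at hy
      obtain ⟨hy1, hy2⟩ := hy
      rw [Finset.mem_filter]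
      refine ⟨Finset.mem_image.mpr ⟨y - a, ?_, ?_⟩, ?_⟩
      · exact ((hTO k q hq).2.1 r (y - a)).mpr (hY y hy1).2
      · rw [hya]
      · have h3 := hβ2 y hy1
        rw [hy2] at h3
        exact h3
    rw [Finset.card_eq_sum_card_fiberwise (f := fun y => phi q b y) (t :=
      ((HF k q r).image fun h => phi q b (a + h)).filter fun v => v ∈ V) hm2]
    have h4 : ∀ v ∈ ((HF k q r).image fun h => phi q b (a + h)).filter (fun v => v ∈ V),
        ((Y.filter fun y => β y = b).filter fun y => phi q b y = v).card ≤ q ^ kr k r := by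
      intro v _
      rcases ((Y.filter fun y => β y = b).filter fun y => phi q b y = v).eq_empty_or_nonempty
        with h0 | ⟨y₀, hy₀⟩
      · rw [h0, Finset.card_empty]
        exact Nat.zero_le _
      · rw [Finset.mem_filter, Finset.mem_filter] at hy₀
        have h5 := hKR k q b r hq hr
          (((Y.filter fun y => β y = b).filter fun y => phi q b y = v).image fun y => y - y₀) ?_
        · rwa [Finset.card_image_of_injective _ (fun x y h => by
            have h6 : x - y₀ = y - y₀ := h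
            exact sub_left_injective h6)] at h5
        · intro z hz
          rw [Finset.mem_image] at hz
          obtain ⟨y, hy, rfl⟩ := hz
          rw [Finset.mem_filter, Finset.mem_filter] at hy
          refine ⟨?_, ?_⟩
          · have h7 := (H k q r).sub_mem (hY y hy.1.1).2 (hY y₀ hy₀.1.1).2
            have h8 : y - a - (y₀ - a) = y - y₀ := by abel
            rwa [h8] at h7
          · rw [map_sub, hy.2, hy₀.2, sub_self]
    calc _ ≤ ∑ v ∈ ((HF k q r).image fun h => phi q b (a + h)).filter (fun v => v ∈ V),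
          q ^ kr k r := Finset.sum_le_sum h4
      _ = q ^ kr k r * cc k q r b V a := by
          rw [Finset.sum_const, smul_eq_mul, mul_comm]
          rfl
  have h9 : Y.card ≤ q ^ kr k r * ∑ b ∈ Bs k q r W V a, cc k q r b V a := by
    rw [hsum, Finset.mul_sum]
    exact Finset.sum_le_sum hfib
  exact_mod_cast h9

theorem pf_S4 (hAV : TK_AV) (hZL : TK_ZL) (hKR : TK_KR) (_hHM : TK_HM) (hTO : T_TO) :
    TK_S4 := by
  classical
  intro k hk
  obtain ⟨C, c, hC, HZ⟩ := hZL k hk
  refine ⟨C, c, hC, ?_⟩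
  intro q W R n G B hq hkq hm0 hm1 hL hCar r hr1 hrk hOwn
  have hq1 : 1 ≤ q := hq.one_lt.le
  have hqR : (1 : ℝ) ≤ (q : ℝ) := by exact_mod_cast hq1
  have hk3 : (3 : ℝ) ≤ (k : ℝ) := by exact_mod_cast hk
  have hZB : 0 ≤ ZB k q r R n G := zb_nonneg hL hr1 hk
  have hB1 : 1 ≤ B := hL.hB
  have hBc : 1 ≤ B ^ c := one_le_pow₀ hB1
  obtain ⟨Z, hZd⟩ : ∃ Z : ℝ, Z = C * B ^ c * (q : ℝ) ^ (k - r) * ZB k q r R n G := ⟨_, rfl⟩
  have hZ0 : 0 ≤ Z := by
    rw [hZd]
    positivity
  have key := hAV k q r hq1 hrk (W 0) (W 1) ((q : ℝ) ^ kr k r) Z hm0 hm1 (by positivity) hZ0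
    (fun a Y hY => fib_bound hKR hTO hq1 hrk (W 0) (W 1) hCar a Y hY) ?_
  · refine le_trans key (le_of_eq ?_)
    rw [hZd, pow_add, pow_add, pow_one]
    ring
  · intro b hb Y hYB hY1 hY2
    rcases Nat.lt_or_ge r k with hlt | hge
    · have h6 := HZ q W R n G B hq hkq hL r b (2 * (k : ℝ)) Y hr1 hrk hb le_rfl ?_ hY1 hY2
      · rw [hZd]
        refine le_trans h6 ?_
        have h7 : ((q : ℝ) / (2 * (k : ℝ))) ^ (k - r) ≤ (q : ℝ) ^ (k - r) := by
          refine pow_le_pow_left₀ (by positivity) ?_ _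
          rw [div_le_iff₀ (by linarith)]
          nlinarith
        have h8 : 0 ≤ C * B ^ c := by positivity
        exact mul_le_mul_of_nonneg_right (mul_le_mul_of_nonneg_left h7 h8) hZB
      · intro y hy
        have h7 := hYB y hy
        unfold Bs at h7
        rw [Finset.mem_filter] at h7
        obtain ⟨_, h, hh, hyh, _⟩ := h7
        obtain ⟨D, hD1, hD2, hD3⟩ := hOwn hlt (y + h) hyh
        refine ⟨D, hD1, fun b' hb' => ?_, hD3⟩
        obtain ⟨h', hh', hv⟩ := hD2 b' hb'
        exact ⟨h + h', (H k q r).add_mem hh hh', by rwa [← add_assoc]⟩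
    · have hrk' : r = k := le_antisymm hrk hge
      subst hrk'
      have h1 : Y.card ≤ 1 := by
        rw [Finset.card_le_one]
        intro y hy y' hy'
        exact hY2 y hy y' hy' (hY1 y hy y' hy').1
      have h2 : (Y.card : ℝ) ≤ 1 := by exact_mod_cast h1
      refine le_trans h2 ?_
      rw [hZd, zb_top hk, Nat.sub_self, pow_zero, mul_one, mul_one]
      nlinarith

end Pool.Agent.H40.CLK
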